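import Pool.Agent.Lib.H2K.I5
import Pool.Agent.Lib.H2K.KN1

/-!
# H2W file A1: a general complex hyperplane

`hpLast n`: the last index of `Fin (2 n)`.  `a1_exists`: for `φ ≠ 0` there is an invertible matrix `g` all of whose
columns except the last one lie in the kernel of `φ`.  `a1_gl`: the functional `W` of `hPf` under a linear change.
-/

open MeasureTheory MvPolynomial

namespace H2W

open H2K

/-- the last index -/
def hpLast (n : ℕ) [NeZero n] : Fin (2 * n) :=
  ⟨2 * n - 1, by have := Nat.pos_of_ne_zero (NeZero.ne n); omega⟩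

theorem a1_push {ι : Type} [Fintype ι] [DecidableEq ι] (β P : Matrix ι ι ℂ) (G : MvPolynomial ι ℂ)
    (c : ℂ) (h : ∀ v : ι → ℂ, eval (P.mulVec v) G = c * eval v G) :
    W (P * β * P.conjTranspose) G G = (c * (starRingEnd ℂ) c) * W β G G := by
  rw [g4_W]
  unfold W WW
  rw [← integral_const_mul]
  refine integral_congr_ae (Filter.Eventually.of_forall fun g => ?_)
  simp only
  rw [← Matrix.mulVec_mulVec, h, h, Matrix.one_mulVec, map_mul]
  ring

theorem a1_gl (n : ℕ) (β : Matrix (Fin (2 * n) × Fin (2 * n)) (Fin (2 * n) × Fin (2 * n)) ℂ)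
    (g : Matrix (Fin (2 * n)) (Fin (2 * n)) ℂ) :
    (W (TU g * β * (TU g).conjTranspose) (hPf n) (hPf n)).re =
      Complex.normSq g.det * (W β (hPf n) (hPf n)).re := by
  rw [a1_push β (TU g) (hPf n) g.det (fun v => by rw [i0_TUv, p1_equivariant]), Complex.mul_conj,
    Complex.re_ofReal_mul]

theorem a1_exists (n : ℕ) [NeZero n] (φ : Fin (2 * n) → ℂ) (hφ : φ ≠ 0) :
    ∃ g : Matrix (Fin (2 * n)) (Fin (2 * n)) ℂ, IsUnit g.det ∧
      ∀ c, c ≠ hpLast n → ∑ a, φ a * g a c = 0 := by
  classical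
  obtain ⟨j, hj⟩ := Function.ne_iff.mp hφ
  have hj' : φ j ≠ 0 := hj
  set s : Equiv.Perm (Fin (2 * n)) := Equiv.swap j (hpLast n) with hs
  set ψ : Fin (2 * n) → ℂ := fun a => φ (s a) with hψ
  have hlast : ψ (hpLast n) = φ j := by
    simp only [hψ, hs, Equiv.swap_apply_right]
  set S : Matrix (Fin (2 * n)) (Fin (2 * n)) ℂ :=
    1 + Matrix.replicateCol Unit (Pi.single (hpLast n) (1 : ℂ)) *
      Matrix.replicateRow Unit (fun c => if c = hpLast n then 0 else -(ψ c / ψ (hpLast n))) with hS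
  have hSe : ∀ a c, S a c = (if a = c then 1 else 0) +
      (if a = hpLast n then 1 else 0) * (if c = hpLast n then 0 else -(ψ c / ψ (hpLast n))) := by
    intro a c
    rw [hS, Matrix.add_apply, Matrix.one_apply, Matrix.mul_apply]
    simp only [Finset.univ_unique, Finset.sum_singleton, Matrix.replicateCol_apply,
      Matrix.replicateRow_apply, Pi.single_apply]
  have hSdet : S.det = 1 := by
    rw [hS, Matrix.det_one_add_replicateCol_mul_replicateRow]
    simp [dotProduct, Pi.single_apply]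
  refine ⟨S.submatrix s.symm id, ?_, ?_⟩
  · rw [Matrix.det_permute, hSdet, mul_one]
    rcases Int.units_eq_one_or (Equiv.Perm.sign s.symm) with h | h <;> simp [h]
  · intro c hc
    have h1 : ∑ a, φ a * (S.submatrix s.symm id) a c = ∑ b, ψ b * S b c := by
      rw [← Equiv.sum_comp s]
      refine Finset.sum_congr rfl fun b _ => ?_
      simp only [Matrix.submatrix_apply, Equiv.symm_apply_apply, id_eq, hψ]
    rw [h1]
    simp only [hSe, mul_add, Finset.sum_add_distrib]
    have h2 : ∑ b, ψ b * (if b = c then (1 : ℂ) else 0) = ψ c := by simp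
    have h3 : ∑ b, ψ b * ((if b = hpLast n then (1 : ℂ) else 0) *
        (if c = hpLast n then 0 else -(ψ c / ψ (hpLast n)))) = -ψ c := by
      rw [Finset.sum_eq_single (hpLast n)]
      · rw [if_pos rfl, if_neg hc, one_mul]
        have : ψ (hpLast n) ≠ 0 := by rw [hlast]; exact hj'
        field_simp
      · intro b _ hb
        rw [if_neg hb]
        ring
      · intro h
        exact absurd (Finset.mem_univ _) h
    rw [h2, h3, add_neg_cancel]

theorem a1_skew (n : ℕ) (α : Matrix (Fin (2 * n) × Fin (2 * n)) (Fin (2 * n) × Fin (2 * n)) ℂ)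
    (hs : ∀ p q c, α (p, q) c = -α (q, p) c) (u : Matrix (Fin (2 * n)) (Fin (2 * n)) ℂ)
    (p q : Fin (2 * n)) (c : Fin (2 * n) × Fin (2 * n)) :
    (TU u * α * (TU u).conjTranspose) (p, q) c = -(TU u * α * (TU u).conjTranspose) (q, p) c := by
  set Y := α * (TU u).conjTranspose with hY
  have hYskew : ∀ p q c, Y (p, q) c = -Y (q, p) c := by
    intro p q c
    simp only [hY, Matrix.mul_apply]
    rw [← Finset.sum_neg_distrib]
    apply Finset.sum_congr rfl
    intro d _
    rw [hs p q d]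
    ring
  have hent : ∀ p q c, (TU u * α * (TU u).conjTranspose) (p, q) c =
      ∑ a', ∑ b', u a' p * u b' q * Y (a', b') c := by
    intro p q c
    rw [Matrix.mul_assoc, ← hY, Matrix.mul_apply, Fintype.sum_prod_type]
    rfl
  rw [hent, hent, Finset.sum_comm, ← Finset.sum_neg_distrib]
  apply Finset.sum_congr rfl
  intro b' _
  rw [← Finset.sum_neg_distrib]
  apply Finset.sum_congr rfl
  intro a' _
  rw [hYskew a' b' c]
  ring

theorem a1_push_skew {n : ℕ} (g : Matrix (Fin (2 * n)) (Fin (2 * n)) ℂ)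
    (ω : Fin (2 * n) × Fin (2 * n) → ℂ) (h : ∀ p q, ω (p, q) = -ω (q, p)) (p q : Fin (2 * n)) :
    push g ω (p, q) = -push g ω (q, p) := by
  unfold push
  simp only
  rw [Finset.sum_comm, ← Finset.sum_neg_distrib]
  refine Finset.sum_congr rfl fun b _ => ?_
  rw [← Finset.sum_neg_distrib]
  refine Finset.sum_congr rfl fun a _ => ?_
  rw [h a b]
  ring

theorem a1_push_ne {n : ℕ} (g : Matrix (Fin (2 * n)) (Fin (2 * n)) ℂ) (hg : IsUnit g.det)
    (ω : Fin (2 * n) × Fin (2 * n) → ℂ) (h : ω ≠ 0) : push g ω ≠ 0 := by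
  intro h0
  apply h
  have h1 : push g⁻¹ (push g ω) = ω := by
    rw [i0_push, Matrix.nonsing_inv_mul g hg, i0_one]
  rw [← h1, h0]
  funext c
  simp [push]

theorem a1_push_biv {n : ℕ} (g : Matrix (Fin (2 * n)) (Fin (2 * n)) ℂ)
    (z w : Fin (2 * n) → ℂ) :
    push g (fun c => z c.1 * w c.2) = fun c => g.mulVec z c.1 * g.mulVec w c.2 := by
  funext c
  simp only [push, Matrix.mulVec, dotProduct]
  rw [Finset.sum_mul_sum]
  refine Finset.sum_congr rfl fun p _ => Finset.sum_congr rfl fun q _ => ?_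
  ring

theorem a1_push_form {n : ℕ} [NeZero n] (g : Matrix (Fin (2 * n)) (Fin (2 * n)) ℂ) (φ : Fin (2 * n) → ℂ)
    (hg : ∀ c, c ≠ hpLast n → ∑ a, φ a * g a c = 0)
    (ω : Fin (2 * n) × Fin (2 * n) → ℂ) (h : ∀ p, ω (p, hpLast n) = 0) (p : Fin (2 * n)) :
    ∑ q, push g ω (p, q) * φ q = 0 := by
  unfold push
  simp only [Finset.sum_mul]
  rw [Finset.sum_comm]
  refine Finset.sum_eq_zero fun a _ => ?_
  rw [Finset.sum_comm]
  refine Finset.sum_eq_zero fun b _ => ?_
  by_cases hb : b = hpLast n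
  · refine Finset.sum_eq_zero fun q _ => ?_
    rw [hb, h a]
    ring
  · have h1 : ∑ q, g p a * ω (a, b) * g q b * φ q = g p a * ω (a, b) * ∑ q, φ q * g q b := by
      rw [Finset.mul_sum]
      refine Finset.sum_congr rfl fun q _ => ?_
      ring
    rw [h1, hg b hb, mul_zero]

end H2W
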