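import Pool.Agent.Lib.H2W.A1

/-!
# H2W file A2: the pointwise theorem for a general hyperplane, nonstrict version

`Core m` is the theorem in coordinates (hyperplane: last coordinate zero), proved in `Lib/H87/HopfHP`.
`HP P`: there is a linear form `φ` such that `P(ω, conj ω) ≥ 0` for all complex two-vectors `ω` on `ker φ`.
-/

open MeasureTheory MvPolynomial
open scoped ComplexOrder

namespace H2W

open H2K Pool.Agent.H69Hopf

/-- the theorem in coordinates -/
def Core (m : ℕ) [NeZero m] : Prop :=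
  ∀ β : Matrix (Fin (2 * m) × Fin (2 * m)) (Fin (2 * m) × Fin (2 * m)) ℂ, β.IsHermitian →
    (∀ p q c, β (p, q) c = -β (q, p) c) →
    (∀ ω : Fin (2 * m) × Fin (2 * m) → ℂ, (∀ p q, ω (p, q) = -ω (q, p)) →
      (∀ p, ω (p, hpLast m) = 0) → ω ≠ 0 → 0 < (qf β ω).re) →
    (∀ z w : Fin (2 * m) → ℂ, 0 ≤ (qf β (fun c => z c.1 * w c.2)).re) →
    0 ≤ (W β (hPf m) (hPf m)).re

/-- nonnegative on the two-vectors of a complex hyperplane -/
def HP {n : ℕ} (P : Arr (2 * n)) : Prop :=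
  ∃ φ : Fin (2 * n) → ℂ, ∀ ω : Fin (2 * n) × Fin (2 * n) → ℂ, (∀ p q, ω (p, q) = -ω (q, p)) →
    (∀ p, ∑ q, ω (p, q) * φ q = 0) → 0 ≤ (qf (cov P) ω).re

theorem a2_gen (n : ℕ) [NeZero n] (hC : Core n)
    (α : Matrix (Fin (2 * n) × Fin (2 * n)) (Fin (2 * n) × Fin (2 * n)) ℂ) (hα : α.IsHermitian)
    (hs : ∀ p q c, α (p, q) c = -α (q, p) c) (φ : Fin (2 * n) → ℂ) (hφ : φ ≠ 0)
    (hW : ∀ ω : Fin (2 * n) × Fin (2 * n) → ℂ, (∀ p q, ω (p, q) = -ω (q, p)) →
      (∀ p, ∑ q, ω (p, q) * φ q = 0) → ω ≠ 0 → 0 < (qf α ω).re)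
    (hK : ∀ z w : Fin (2 * n) → ℂ, 0 ≤ (qf α (fun c => z c.1 * w c.2)).re) :
    0 ≤ (W α (hPf n) (hPf n)).re := by
  obtain ⟨g, hg, hgφ⟩ := a1_exists n φ hφ
  have h := hC (TU g * α * (TU g).conjTranspose)
    (Matrix.isHermitian_mul_mul_conjTranspose (TU g) hα) (a1_skew n α hs g)
    (fun ω h1 h2 h3 => by
      rw [i0_TU]
      exact hW _ (a1_push_skew g ω h1) (a1_push_form g φ hgφ ω h2) (a1_push_ne g hg ω h3))
    (fun z w => by
      rw [i0_TU, a1_push_biv]
      exact hK _ _)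
  rw [a1_gl] at h
  exact nonneg_of_mul_nonneg_right h (Complex.normSq_pos.mpr hg.ne_zero)

theorem a2_eps (n : ℕ) [NeZero n] (hC : Core n) (S : Arr (2 * n))
    (hskew : ∀ a b c d, S a b c d = -S b a c d) (hpair : ∀ a b c d, S a b c d = S c d a b)
    (h : KN 1 S) (φ : Fin (2 * n) → ℂ) (hφ : φ ≠ 0)
    (hH : ∀ ω : Fin (2 * n) × Fin (2 * n) → ℂ, (∀ p q, ω (p, q) = -ω (q, p)) →
      (∀ p, ∑ q, ω (p, q) * φ q = 0) → 0 ≤ (qf (cov S) ω).re) (ε : ℝ) (hε : 0 < ε) :
    0 ≤ gaussBonnet n (fun i j k l => S i j k l + ε * idA (2 * n) i j k l) := by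
  have hz : ∀ z w : Fin (2 * n) → ℂ, (fun c : Fin (2 * n) × Fin (2 * n) => z c.1 * w c.2) =
      biv (fun _ : Fin 1 => z) (fun _ : Fin 1 => w) := by
    intro z w
    funext c
    simp [biv]
  have h1 := a2_gen n hC (cov (fun i j k l => S i j k l + ε * idA (2 * n) i j k l))
    (by
      ext c d
      simp only [Matrix.conjTranspose_apply, cov]
      rw [hpair d.1 d.2 c.1 c.2]
      have hid : idA (2 * n) d.1 d.2 c.1 c.2 = idA (2 * n) c.1 c.2 d.1 d.2 := by
        simp only [idA, eq_comm]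
        ring
      rw [hid]
      exact Complex.conj_ofReal _)
    (by
      intro p q c
      simp only [cov]
      rw [hskew p q c.1 c.2]
      have hid : idA (2 * n) p q c.1 c.2 = -idA (2 * n) q p c.1 c.2 := by
        simp only [idA]
        ring
      rw [hid]
      push_cast
      ring) φ hφ
    (by
      intro ω h1 h2 h3
      rw [i5_cov_add, i5_idA]
      have h4 := hH ω h1 h2
      have h5 : 0 < ∑ a : Fin (2 * n), ∑ b : Fin (2 * n), ‖ω (a, b) - ω (b, a)‖ ^ 2 / 2 := by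
        obtain ⟨⟨a, b⟩, hab⟩ := Function.ne_iff.mp h3
        have h6 : 0 < ‖ω (a, b) - ω (b, a)‖ ^ 2 / 2 := by
          have : 0 < ‖ω (a, b) - ω (b, a)‖ := by
            rw [norm_pos_iff, h1 b a, sub_neg_eq_add]
            intro h7
            apply hab
            have h8 : (2 : ℂ) * ω (a, b) = 0 := by linear_combination h7
            rcases mul_eq_zero.mp h8 with h9 | h9
            · norm_num at h9
            · exact h9
          positivity
        refine Finset.sum_pos' (fun a _ => Finset.sum_nonneg fun b _ => by positivity)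
          ⟨a, Finset.mem_univ a, ?_⟩
        exact Finset.sum_pos' (fun b _ => by positivity) ⟨b, Finset.mem_univ b, h6⟩
      have := mul_pos hε h5
      linarith)
    (by
      intro z w
      rw [hz, i5_cov_add, i5_idA]
      have h2 := h (fun _ => z) (fun _ => w)
      have h3 : 0 ≤ ∑ a : Fin (2 * n), ∑ b : Fin (2 * n),
          ‖biv (fun _ : Fin 1 => z) (fun _ : Fin 1 => w) (a, b) -
            biv (fun _ : Fin 1 => z) (fun _ : Fin 1 => w) (b, a)‖ ^ 2 / 2 :=
        Finset.sum_nonneg fun a _ => Finset.sum_nonneg fun b _ => by positivity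
      have := mul_nonneg hε.le h3
      linarith)
  rw [g7_W] at h1
  have h2 : (((n.factorial : ℂ) * (gaussBonnet n
      (fun i j k l => S i j k l + ε * idA (2 * n) i j k l) : ℂ)).re) =
      (n.factorial : ℝ) * gaussBonnet n (fun i j k l => S i j k l + ε * idA (2 * n) i j k l) := by
    rw [← Complex.ofReal_natCast, ← Complex.ofReal_mul, Complex.ofReal_re]
  rw [h2] at h1
  have h3 : (0 : ℝ) < n.factorial := by exact_mod_cast Nat.factorial_pos n
  exact nonneg_of_mul_nonneg_right h1 h3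

/-- the form can be taken to be nonzero -/
theorem a2_ne {n : ℕ} [NeZero n] {P : Arr (2 * n)} (h : HP P) :
    ∃ φ : Fin (2 * n) → ℂ, φ ≠ 0 ∧ ∀ ω : Fin (2 * n) × Fin (2 * n) → ℂ,
      (∀ p q, ω (p, q) = -ω (q, p)) → (∀ p, ∑ q, ω (p, q) * φ q = 0) → 0 ≤ (qf (cov P) ω).re := by
  obtain ⟨φ, hφ⟩ := h
  by_cases h0 : φ = 0
  · refine ⟨Pi.single (hpLast n) 1, ?_, ?_⟩
    · intro h1
      have := congrFun h1 (hpLast n)
      simp at this
    · intro ω h1 _
      refine hφ ω h1 fun p => ?_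
      rw [h0]
      simp
  · exact ⟨φ, h0, hφ⟩

theorem a2_gb (hC : ∀ (m : ℕ) [NeZero m], Core m) (n : ℕ) (S : Arr (2 * n))
    (hskew : ∀ a b c d, S a b c d = -S b a c d) (hpair : ∀ a b c d, S a b c d = S c d a b)
    (h : KN 1 S) (hH : HP S) : 0 ≤ gaussBonnet n S := by
  rcases Nat.eq_zero_or_pos n with rfl | hn
  · unfold gaussBonnet
    simp
  have : NeZero n := ⟨by omega⟩
  obtain ⟨φ, hφ, hφ'⟩ := a2_ne hH
  have hcont : Continuous fun ε : ℝ =>
      gaussBonnet n (fun i j k l => S i j k l + ε * idA (2 * n) i j k l) := by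
    unfold gaussBonnet
    fun_prop
  have h0 : (fun ε : ℝ => gaussBonnet n (fun i j k l => S i j k l + ε * idA (2 * n) i j k l)) 0 =
      gaussBonnet n S := by
    simp
  have ht : Filter.Tendsto (fun ε : ℝ =>
      gaussBonnet n (fun i j k l => S i j k l + ε * idA (2 * n) i j k l))
      (nhdsWithin 0 (Set.Ioi 0)) (nhds (gaussBonnet n S)) := by
    rw [← h0]
    exact hcont.continuousAt.continuousWithinAt
  refine ge_of_tendsto ht ?_
  filter_upwards [self_mem_nhdsWithin] with ε hε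
  exact a2_eps n (hC n) S hskew hpair h φ hφ hφ' ε hε

theorem a2_qf_pull {m N : ℕ} (P : Arr (2 * N)) (v : Fin (2 * m) → (Fin (2 * N) → ℝ))
    (ω : Fin (2 * m) × Fin (2 * m) → ℂ) :
    qf (cov (pull v P)) ω = qf (cov P) (fun p => ∑ x : Fin (2 * m) × Fin (2 * m),
      ((v x.1 p.1 * v x.2 p.2 : ℝ) : ℂ) * ω x) := by
  have key := kn_sum (fun (p : Fin (2 * N) × Fin (2 * N)) (x : Fin (2 * m) × Fin (2 * m)) =>
    v x.1 p.1 * v x.2 p.2) (fun p q => P p.1 p.2 q.1 q.2) ω
  have e1 : qf (cov (pull v P)) ω = ∑ x, ∑ y, ω x * (starRingEnd ℂ) (ω y) *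
      ((∑ p : Fin (2 * N) × Fin (2 * N), ∑ q : Fin (2 * N) × Fin (2 * N),
        (v x.1 p.1 * v x.2 p.2) * (v y.1 q.1 * v y.2 q.2) * P p.1 p.2 q.1 q.2 : ℝ) : ℂ) := by
    unfold qf
    refine Finset.sum_congr rfl fun x _ => Finset.sum_congr rfl fun y _ => ?_
    congr 1
    unfold cov pull ev
    rw [Complex.ofReal_inj, Fintype.sum_prod_type]
    refine Finset.sum_congr rfl fun i _ => Finset.sum_congr rfl fun j _ => ?_
    rw [Fintype.sum_prod_type]
    refine Finset.sum_congr rfl fun k _ => Finset.sum_congr rfl fun l _ => ?_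
    ring
  rw [e1]
  refine key.trans ?_
  unfold qf
  rfl

theorem a2_pull {m N : ℕ} (P : Arr (2 * N)) (v : Fin (2 * m) → (Fin (2 * N) → ℝ))
    (h : HP P) : HP (pull v P) := by
  obtain ⟨φ, hφ⟩ := h
  refine ⟨fun i => ∑ b, (v i b : ℂ) * φ b, fun ω h1 h2 => ?_⟩
  rw [a2_qf_pull]
  refine hφ _ ?_ ?_
  · intro p q
    rw [Fintype.sum_prod_type, Fintype.sum_prod_type, Finset.sum_comm, ← Finset.sum_neg_distrib]
    refine Finset.sum_congr rfl fun j _ => ?_
    rw [← Finset.sum_neg_distrib]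
    refine Finset.sum_congr rfl fun i _ => ?_
    simp only
    rw [h1 i j]
    push_cast
    ring
  · intro p
    have e : ∀ q, (∑ x : Fin (2 * m) × Fin (2 * m), ((v x.1 p * v x.2 q : ℝ) : ℂ) * ω x) * φ q =
        ∑ i, ∑ j, (v i p : ℂ) * (ω (i, j) * ((v j q : ℂ) * φ q)) := by
      intro q
      rw [Fintype.sum_prod_type, Finset.sum_mul]
      refine Finset.sum_congr rfl fun i _ => ?_
      rw [Finset.sum_mul]
      refine Finset.sum_congr rfl fun j _ => ?_
      push_cast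
      ring
    simp only [e]
    rw [Finset.sum_comm]
    refine Finset.sum_eq_zero fun i _ => ?_
    have h3 := h2 i
    rw [Finset.sum_comm]
    have h4 : ∀ j, ∑ q, (v i p : ℂ) * (ω (i, j) * ((v j q : ℂ) * φ q)) =
        (v i p : ℂ) * (ω (i, j) * ∑ q, (v j q : ℂ) * φ q) := by
      intro j
      rw [Finset.mul_sum, Finset.mul_sum]
    simp only [h4]
    rw [← Finset.mul_sum, h3, mul_zero]

theorem a2_lower (hC : ∀ (m : ℕ) [NeZero m], Core m) (n : ℕ) (P : Arr (2 * n))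
    (hA : IsAlgCurv P) (t : ℝ) (ht : 0 < t)
    (hP : KN 1 (fun i j p q => P i j p q - t * idA (2 * n) i j p q))
    (hH : HP (fun i j p q => P i j p q - t * idA (2 * n) i j p q)) : 0 < gaussBonnet n P := by
  have h := st_lower (n := n) (fun m Q => IsAlgCurv Q ∧ KN 1 Q ∧ HP Q)
    (fun m hm Q hQ => a2_gb hC m Q hQ.1.skew hQ.1.pair hQ.2.1 hQ.2.2)
    (fun m Q v _ hQ => ⟨pull_algCurv v hQ.1, kn_pull Q v hQ.2.1, a2_pull Q v hQ.2.2⟩) t ht
    (fun i j p q => P i j p q - t * idA (2 * n) i j p q) ⟨algCurv_sub_idA hA t, hP, hH⟩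
  have e : (fun i j k l => t * idA (2 * n) i j k l + (P i j k l - t * idA (2 * n) i j k l)) = P := by
    funext i j k l
    ring
  rw [e] at h
  exact h

end H2W
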