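import Pool.Agent.Lib.H2W.A2
import Pool.Agent.Lib.H2K.F2

/-!
# H2W file A3: closed manifolds

`complexCurvTwo R ω = R(ω, conj ω)`; `HyperplaneNonpos R`: `R(ω, conj ω) ≤ 0` for all complex two-vectors `ω` on one
complex hyperplane (kernel of a linear form `φ`).
-/

open H31R H79G Pool.Agent.H69Hopf

namespace H2W

open H2K

/-- The value `R(ω, ω̄)` for the complex two-vector with components `ω i j` (for a curvature tensor the sum is
real). -/
noncomputable def complexCurvTwo {d : ℕ} (R : Fin d → Fin d → Fin d → Fin d → ℝ)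
    (ω : Fin d → Fin d → ℂ) : ℝ :=
  (∑ i, ∑ j, ∑ p, ∑ q, (R i j p q : ℂ) * ω i j * (starRingEnd ℂ) (ω p q)).re

/-- There is a complex linear form `φ` such that `R(ω, ω̄) ≤ 0` for all complex two-vectors `ω` on the kernel of
`φ`. -/
def HyperplaneNonpos {d : ℕ} (R : Fin d → Fin d → Fin d → Fin d → ℝ) : Prop :=
  ∃ φ : Fin d → ℂ, ∀ ω : Fin d → Fin d → ℂ, (∀ i j, ω i j = -ω j i) → (∀ i, ∑ j, ω i j * φ j = 0) →
    complexCurvTwo R ω ≤ 0

theorem a3_qf {n : ℕ} (R : Arr (2 * n)) (ω : Fin (2 * n) → Fin (2 * n) → ℂ) :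
    complexCurvTwo R ω = (qf (cov R) (fun c => ω c.1 c.2)).re := by
  unfold complexCurvTwo qf
  congr 1
  simp only [Fintype.sum_prod_type]
  refine Finset.sum_congr rfl fun i _ => Finset.sum_congr rfl fun j _ =>
    Finset.sum_congr rfl fun p _ => Finset.sum_congr rfl fun q _ => ?_
  simp only [cov]
  ring

theorem a3_neg {d : ℕ} (S : Fin d → Fin d → Fin d → Fin d → ℝ) (ω : Fin d → Fin d → ℂ) :
    complexCurvTwo (fun i j p q => - S i j p q) ω = - complexCurvTwo S ω := by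
  unfold complexCurvTwo
  rw [← Complex.neg_re]
  congr 1
  simp only [← Finset.sum_neg_distrib]
  refine Finset.sum_congr rfl fun i _ => Finset.sum_congr rfl fun j _ =>
    Finset.sum_congr rfl fun p _ => Finset.sum_congr rfl fun q _ => ?_
  push_cast
  ring

theorem a3_HP {n : ℕ} {R : Arr (2 * n)} (h : HyperplaneNonpos R) :
    HP (fun i j p q => - R i j p q) := by
  obtain ⟨φ, hφ⟩ := h
  refine ⟨φ, fun ω h1 h2 => ?_⟩
  have h3 := hφ (fun i j => ω (i, j)) h1 h2
  have h4 := a3_neg R (fun i j => ω (i, j))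
  rw [a3_qf] at h4
  have h5 : (fun c : Fin (2 * n) × Fin (2 * n) => ω (c.1, c.2)) = ω := rfl
  rw [h5] at h4
  rw [h4]
  linarith

/-- pointwise statement -/
theorem a3_point (hC : ∀ (m : ℕ) [NeZero m], Core m) (n k : ℕ) (hk : 1 ≤ k)
    (R : Arr (2 * n)) (hA : IsAlgCurv R)
    (hK : ∀ z w : Fin k → Fin (2 * n) → ℂ, complexCurvK R z w ≤ 0) (hH : HyperplaneNonpos R) :
    0 ≤ (-1) ^ n * gaussBonnet n R ∧
    (∀ t : ℝ, 0 < t → (∀ z w : Fin k → Fin (2 * n) → ℂ,
      complexCurvK (fun i j p q => R i j p q + t * idA (2 * n) i j p q) z w ≤ 0) →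
      HyperplaneNonpos (fun i j p q => R i j p q + t * idA (2 * n) i j p q) →
      0 < (-1) ^ n * gaussBonnet n R) := by
  have hA' := algCurv_neg hA
  have hneg : ∀ (S : Arr (2 * n)) (z w : Fin k → Fin (2 * n) → ℂ),
      complexCurvK (fun i j p q => - S i j p q) z w = - complexCurvK S z w :=
    fun S z w => f1_neg S z w
  refine ⟨?_, fun t ht hT hT' => ?_⟩
  · rw [← gb_neg]
    refine a2_gb hC n _ hA'.skew hA'.pair (i5_KN_mono hk _ fun z w => ?_) (a3_HP hH)
    rw [← f1_qf, hneg]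
    have := hK z w
    linarith
  · rw [← gb_neg]
    have e : (fun i j p q => (fun i j k l => - R i j k l) i j p q - t * idA (2 * n) i j p q) =
        (fun i j p q => - (R i j p q + t * idA (2 * n) i j p q)) := by
      funext i j p q
      ring
    refine a2_lower hC n _ hA' t ht (i5_KN_mono hk _ fun z w => ?_) ?_
    · rw [← f1_qf, e, hneg (fun i j p q => R i j p q + t * idA (2 * n) i j p q)]
      have := hT z w
      linarith
    · rw [e]
      exact a3_HP hT'

theorem a3_frame {d : ℕ} (R : Cu d) (E : Mt d) (ω : Fin d → Fin d → ℂ) :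
    complexCurvTwo (frameR R E) ω =
      complexCurvTwo R (fun a b => ∑ i, ∑ j, (E a i : ℂ) * (E b j : ℂ) * ω i j) := by
  have key := kn_sum (fun (p : Fin d × Fin d) (x : Fin d × Fin d) => E p.1 x.1 * E p.2 x.2)
    (fun p q => R p.1 p.2 q.1 q.2) (fun x : Fin d × Fin d => ω x.1 x.2)
  unfold complexCurvTwo
  congr 1
  have e1 : ∑ i, ∑ j, ∑ p, ∑ q, (frameR R E i j p q : ℂ) * ω i j * (starRingEnd ℂ) (ω p q) =
      ∑ x : Fin d × Fin d, ∑ y : Fin d × Fin d, ω x.1 x.2 * (starRingEnd ℂ) (ω y.1 y.2) *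
        ((∑ p : Fin d × Fin d, ∑ q : Fin d × Fin d,
          (E p.1 x.1 * E p.2 x.2) * (E q.1 y.1 * E q.2 y.2) * R p.1 p.2 q.1 q.2 : ℝ) : ℂ) := by
    rw [Fintype.sum_prod_type]
    refine Finset.sum_congr rfl fun i _ => Finset.sum_congr rfl fun j _ => ?_
    rw [Fintype.sum_prod_type]
    refine Finset.sum_congr rfl fun p _ => Finset.sum_congr rfl fun q _ => ?_
    have e2 : frameR R E i j p q = ∑ s : Fin d × Fin d, ∑ t : Fin d × Fin d,
          (E s.1 i * E s.2 j) * (E t.1 p * E t.2 q) * R s.1 s.2 t.1 t.2 := by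
      unfold frameR
      rw [Fintype.sum_prod_type]
      refine Finset.sum_congr rfl fun a _ => Finset.sum_congr rfl fun b _ => ?_
      rw [Fintype.sum_prod_type]
      refine Finset.sum_congr rfl fun c _ => Finset.sum_congr rfl fun e _ => ?_
      ring
    rw [e2]
    ring
  rw [e1]
  refine key.trans ?_
  rw [Fintype.sum_prod_type]
  refine Finset.sum_congr rfl fun a _ => Finset.sum_congr rfl fun b _ => ?_
  rw [Fintype.sum_prod_type]
  refine Finset.sum_congr rfl fun c _ => Finset.sum_congr rfl fun e _ => ?_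
  have e3 : ∀ a b : Fin d, ∑ x : Fin d × Fin d, ((E a x.1 * E b x.2 : ℝ) : ℂ) * ω x.1 x.2 =
      ∑ i, ∑ j, (E a i : ℂ) * (E b j : ℂ) * ω i j := by
    intro a b
    rw [Fintype.sum_prod_type]
    refine Finset.sum_congr rfl fun i _ => Finset.sum_congr rfl fun j _ => ?_
    push_cast
    ring
  simp only [e3]
  ring

theorem a3_frameH {d : ℕ} {R : Cu d} (h : HyperplaneNonpos R) (E : Mt d) :
    HyperplaneNonpos (frameR R E) := by
  obtain ⟨φ, hφ⟩ := h
  refine ⟨fun j => ∑ b, (E b j : ℂ) * φ b, fun ω h1 h2 => ?_⟩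
  rw [a3_frame]
  refine hφ _ ?_ ?_
  · intro a b
    rw [Finset.sum_comm, ← Finset.sum_neg_distrib]
    refine Finset.sum_congr rfl fun j _ => ?_
    rw [← Finset.sum_neg_distrib]
    refine Finset.sum_congr rfl fun i _ => ?_
    rw [h1 i j]
    ring
  · intro a
    simp only [Finset.sum_mul]
    rw [Finset.sum_comm]
    refine Finset.sum_eq_zero fun i _ => ?_
    rw [Finset.sum_comm]
    have h3 : ∀ j, ∑ b, (E a i : ℂ) * (E b j : ℂ) * ω i j * φ b =
        (E a i : ℂ) * (ω i j * ∑ b, (E b j : ℂ) * φ b) := by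
      intro j
      rw [Finset.mul_sum, Finset.mul_sum]
      refine Finset.sum_congr rfl fun b _ => ?_
      ring
    simp only [h3]
    rw [← Finset.mul_sum, h2 i, mul_zero]

theorem a3_main (hC : ∀ (m : ℕ) [NeZero m], Core m) (h6 : Six)
    (h6' : ∀ (k : ℕ), 1 ≤ k → ∀ R : Arr (2 * 3), IsAlgCurv R →
      (∀ z w : Fin k → Fin (2 * 3) → ℂ, complexCurvK R z w ≤ 0) →
      (∀ x v : Fin 6 → ℝ, LinearIndependent ℝ ![x, v] → realCurv R x v < 0) → gaussBonnet 3 R < 0)
    (n k : ℕ) (hk : 1 ≤ k)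
    (M : Closed (2 * n)) (g : Ch.Metric (2 * n) M.carrier)
    (hK : ∀ p : M.carrier, ∀ y ∈ (chartAt (EE (2 * n)) p).target,
      (∀ z w : Fin k → Fin (2 * n) → ℂ, complexCurvK (riem (g.mat p) y) z w ≤ 0) ∧
      (n ≤ 3 ∨ 2 * n ≤ 3 * k + 1 ∨ HyperplaneNonpos (riem (g.mat p) y))) :
    ∃ χ : ℤ, IsEulerCharacteristic (2 * n) M.carrier χ ∧ 0 ≤ (-1) ^ n * χ ∧
      ((∃ m : M.carrier,
        (∃ h : ℝ, 0 < h ∧ (∀ z w : Fin k → Fin (2 * n) → ℂ,
          complexCurvK (fun i j p q => riem (g.mat m) (chartAt (EE (2 * n)) m m) i j p q +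
            h * (g.mat m (chartAt (EE (2 * n)) m m) i p * g.mat m (chartAt (EE (2 * n)) m m) j q -
              g.mat m (chartAt (EE (2 * n)) m m) i q * g.mat m (chartAt (EE (2 * n)) m m) j p))
            z w ≤ 0) ∧
          (n ≤ 3 ∨ 2 * n ≤ 3 * k + 1 ∨
            HyperplaneNonpos (fun i j p q => riem (g.mat m) (chartAt (EE (2 * n)) m m) i j p q +
            h * (g.mat m (chartAt (EE (2 * n)) m m) i p * g.mat m (chartAt (EE (2 * n)) m m) j q -
              g.mat m (chartAt (EE (2 * n)) m m) i q * g.mat m (chartAt (EE (2 * n)) m m) j p)))) ∨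
        (n = 3 ∧ ∀ x v : Fin (2 * n) → ℝ, LinearIndependent ℝ ![x, v] →
          realCurv (riem (g.mat m) (chartAt (EE (2 * n)) m m)) x v < 0)) →
        0 < (-1) ^ n * χ) := by
  have hframe : ∀ (T : Cu (2 * n)) (E : Mt (2 * n)),
      (∀ z w : Fin k → Fin (2 * n) → ℂ, complexCurvK T z w ≤ 0) →
      ∀ z w : Fin k → Fin (2 * n) → ℂ, complexCurvK (frameR T E) z w ≤ 0 := by
    intro T E hT z w
    rw [f1_frame]
    exact hT _ _
  have key : ∀ p : M.carrier, ∀ y ∈ (chartAt (EE (2 * n)) p).target, ∀ E : Mt (2 * n),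
      E.transpose * g.mat p y * E = 1 →
      IsAlgCurv (frameR (riem (g.mat p) y) E) ∧
      (∀ z w : Fin k → Fin (2 * n) → ℂ, complexCurvK (frameR (riem (g.mat p) y) E) z w ≤ 0) ∧
      (n ≤ 3 ∨ 2 * n ≤ 3 * k + 1 ∨ HyperplaneNonpos (frameR (riem (g.mat p) y) E)) :=
    fun p y hy E _ => ⟨frame_algCurv (riem_algCurv (metOn g p) hy) E, hframe _ E (hK p y hy).1,
      (hK p y hy).2.imp_right fun h => h.imp_right fun h' => a3_frameH h' E⟩
  obtain ⟨χ, h1, h2, h3⟩ := sign_principle n M g ((-1) ^ n) (fun p y hy E hE => by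
    obtain ⟨a1, a2, a3⟩ := key p y hy E hE
    rcases a3 with a3 | a3 | a3
    · exact (f1_point h6 n k hk (Or.inl a3) _ a1 a2).1
    · exact (f1_point h6 n k hk (Or.inr a3) _ a1 a2).1
    · exact (a3_point hC n k hk _ a1 a2 a3).1)
  refine ⟨χ, h1, ?_, ?_⟩
  · have h4 : (0 : ℝ) ≤ (((-1) ^ n * χ : ℤ) : ℝ) := by push_cast; exact h2
    exact_mod_cast h4
  · rintro ⟨m, hm⟩
    have hx := mem_chart_target (EE (2 * n)) m
    have h4 := h3 ⟨m, fun E hE => by
      obtain ⟨a1, a2, -⟩ := key m _ hx E hE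
      rcases hm with ⟨h, hh, hz, hz'⟩ | ⟨rfl, hneg⟩
      · have h5 := hframe _ E hz
        rw [f1_const _ _ _ hE] at h5
        rcases hz' with b | b | b
        · exact (f1_point h6 n k hk (Or.inl b) _ a1 a2).2 h hh h5
        · exact (f1_point h6 n k hk (Or.inr b) _ a1 a2).2 h hh h5
        · have h6 := a3_frameH b E
          rw [f1_const _ _ _ hE] at h6
          have h7 : (n ≤ 3 ∨ 2 * n ≤ 3 * k + 1 ∨
            HyperplaneNonpos (frameR (riem (g.mat m) (chartAt (EE (2 * n)) m m)) E)) :=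
            (key m _ hx E hE).2.2
          rcases h7 with c | c | c
          · exact (f1_point ‹Six› n k hk (Or.inl c) _ a1 a2).2 h hh h5
          · exact (f1_point ‹Six› n k hk (Or.inr c) _ a1 a2).2 h hh h5
          · exact (a3_point hC n k hk _ a1 a2 c).2 h hh h5 h6
      · have h5 := h6' k hk _ a1 a2 (fun x v hxv => by
          have h6 := hneg _ _ (indep_frame hE hxv)
          rw [← real_frame] at h6
          exact h6)
        have h7 : ((-1 : ℝ)) ^ 3 = -1 := by norm_num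
        rw [h7]
        linarith⟩
    have h5 : (0 : ℝ) < (((-1) ^ n * χ : ℤ) : ℝ) := by push_cast; exact h4
    exact_mod_cast h5

end H2W
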