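import Pool.Agent.Lib.H2W.A3
import Pool.Agent.Lib.H87.HopfHP.Core

/-!
# H2W file A4: the core theorem (`Lib/H87/HopfHP/Core.lean`) in the form used in A3
-/

namespace H2W

theorem core (m : ℕ) [NeZero m] : Core m :=
  fun β hβ hs hW hK => H87HP.hp_core m β hβ hs (fun ω h1 h2 h3 => hW ω h1 (fun p => h2 p _ rfl) h3) hK

end H2W
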