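import Pool.Agent.Lib.H2W.A1

/-!
# H2W file A5: two-vectors of rank at most `2 k'` on a hyperplane, pointwise theorem

`CoreK` is the theorem in coordinates (hyperplane: last coordinate zero), proved in `Lib/H87/HopfHP`.
`HPK k P`: there is a linear form `φ` such that `P(ω, conj ω) ≥ 0` for all `ω = ∑_(l < k) z_l ∧ w_l` with
`z_l, w_l` in the kernel of `φ`.
-/

open MeasureTheory MvPolynomial
open scoped ComplexOrder

namespace H2W

open H2K Pool.Agent.H69Hopf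

/-- the theorem in coordinates -/
def CoreK : Prop :=
  ∀ (n k k' : ℕ) [NeZero n], 1 ≤ k → k ≤ n → k ≤ k' → 2 * n ≤ k + 2 * k' + 1 →
  ∀ β : Matrix (Fin (2 * n) × Fin (2 * n)) (Fin (2 * n) × Fin (2 * n)) ℂ, β.IsHermitian →
    (∀ p q c, β (p, q) c = -β (q, p) c) → StrictPos n k β →
    (∀ z w : Fin k' → Fin (2 * n) → ℂ, (∀ l q, q.val = 2 * n - 1 → z l q = 0 ∧ w l q = 0) →
      (∃ a b, biv z w (a, b) ≠ biv z w (b, a)) → 0 < (qf β (biv z w)).re) →
    0 ≤ (W β (hPf n) (hPf n)).re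

/-- nonnegative on the two-vectors of rank at most `2 k` of a complex hyperplane -/
def HPK (k : ℕ) {n : ℕ} (P : Arr (2 * n)) : Prop :=
  ∃ φ : Fin (2 * n) → ℂ, ∀ z w : Fin k → Fin (2 * n) → ℂ,
    (∀ l, ∑ q, z l q * φ q = 0 ∧ ∑ q, w l q * φ q = 0) → 0 ≤ (qf (cov P) (biv z w)).re

theorem a5_ne {J : Type} [Fintype J] [DecidableEq J] {k : ℕ} (g : Matrix J J ℂ) (hg : IsUnit g.det)
    (z w : Fin k → J → ℂ) (h : ∃ a b, biv z w (a, b) ≠ biv z w (b, a)) :
    ∃ a b, biv (fun l => g.mulVec (z l)) (fun l => g.mulVec (w l)) (a, b) ≠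
      biv (fun l => g.mulVec (z l)) (fun l => g.mulVec (w l)) (b, a) := by
  by_contra h0
  push Not at h0
  obtain ⟨a, b, hab⟩ := h
  apply hab
  have h1 : biv z w = push g⁻¹ (biv (fun l => g.mulVec (z l)) (fun l => g.mulVec (w l))) := by
    rw [← i0_biv, i0_push, Matrix.nonsing_inv_mul g hg, i0_one]
  rw [h1]
  unfold push
  simp only
  rw [Finset.sum_comm]
  refine Finset.sum_congr rfl fun q _ => Finset.sum_congr rfl fun p _ => ?_
  rw [h0 p q]
  ring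

theorem a5_form {n : ℕ} [NeZero n] (g : Matrix (Fin (2 * n)) (Fin (2 * n)) ℂ) (φ : Fin (2 * n) → ℂ)
    (hg : ∀ c, c ≠ hpLast n → ∑ a, φ a * g a c = 0) (z : Fin (2 * n) → ℂ)
    (hz : ∀ q : Fin (2 * n), q.val = 2 * n - 1 → z q = 0) :
    ∑ q, g.mulVec z q * φ q = 0 := by
  simp only [Matrix.mulVec, dotProduct, Finset.sum_mul]
  rw [Finset.sum_comm]
  refine Finset.sum_eq_zero fun c _ => ?_
  by_cases hc : c = hpLast n
  · refine Finset.sum_eq_zero fun q _ => ?_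
    rw [hz c (by rw [hc]; rfl)]
    ring
  · have h1 : ∑ q, g q c * z c * φ q = z c * ∑ q, φ q * g q c := by
      rw [Finset.mul_sum]
      refine Finset.sum_congr rfl fun q _ => ?_
      ring
    rw [h1, hg c hc, mul_zero]

theorem a5_gen (hC : CoreK) (n k k' : ℕ) [NeZero n] (hk : 1 ≤ k) (hkn : k ≤ n) (hkk : k ≤ k')
    (hnk : 2 * n ≤ k + 2 * k' + 1)
    (α : Matrix (Fin (2 * n) × Fin (2 * n)) (Fin (2 * n) × Fin (2 * n)) ℂ) (hα : α.IsHermitian)
    (hs : ∀ p q c, α (p, q) c = -α (q, p) c) (hp : StrictPos n k α)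
    (φ : Fin (2 * n) → ℂ) (hφ : φ ≠ 0)
    (hW : ∀ z w : Fin k' → Fin (2 * n) → ℂ, (∀ l, ∑ q, z l q * φ q = 0 ∧ ∑ q, w l q * φ q = 0) →
      (∃ a b, biv z w (a, b) ≠ biv z w (b, a)) → 0 < (qf α (biv z w)).re) :
    0 ≤ (W α (hPf n) (hPf n)).re := by
  obtain ⟨g, hg, hgφ⟩ := a1_exists n φ hφ
  have h := hC n k k' hk hkn hkk hnk (TU g * α * (TU g).conjTranspose)
    (Matrix.isHermitian_mul_mul_conjTranspose (TU g) hα) (a1_skew n α hs g)
    (fun z w h => by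
      rw [i0_TU, i0_biv]
      exact hp _ _ (a5_ne g hg z w h))
    (fun z w h1 h2 => by
      rw [i0_TU, i0_biv]
      exact hW _ _ (fun l => ⟨a5_form g φ hgφ (z l) fun q hq => (h1 l q hq).1,
        a5_form g φ hgφ (w l) fun q hq => (h1 l q hq).2⟩) (a5_ne g hg z w h2))
  rw [a1_gl] at h
  exact nonneg_of_mul_nonneg_right h (Complex.normSq_pos.mpr hg.ne_zero)

theorem a5_pos {n k : ℕ} (S : Arr (2 * n)) (ε : ℝ) (hε : 0 < ε) (z w : Fin k → Fin (2 * n) → ℂ)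
    (h : 0 ≤ (qf (cov S) (biv z w)).re) (hzw : ∃ a b, biv z w (a, b) ≠ biv z w (b, a)) :
    0 < (qf (cov (fun i j k l => S i j k l + ε * idA (2 * n) i j k l)) (biv z w)).re := by
  rw [i5_cov_add, i5_idA]
  have h3 : 0 < ∑ a : Fin (2 * n), ∑ b : Fin (2 * n),
      ‖biv z w (a, b) - biv z w (b, a)‖ ^ 2 / 2 := by
    obtain ⟨a, b, hab⟩ := hzw
    have h4 : 0 < ‖biv z w (a, b) - biv z w (b, a)‖ ^ 2 / 2 := by
      have : 0 < ‖biv z w (a, b) - biv z w (b, a)‖ := norm_pos_iff.mpr (sub_ne_zero.mpr hab)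
      positivity
    refine Finset.sum_pos' (fun a _ => Finset.sum_nonneg fun b _ => by positivity)
      ⟨a, Finset.mem_univ a, ?_⟩
    exact Finset.sum_pos' (fun b _ => by positivity) ⟨b, Finset.mem_univ b, h4⟩
  have h5 : 0 < ε * ∑ a : Fin (2 * n), ∑ b : Fin (2 * n),
      ‖biv z w (a, b) - biv z w (b, a)‖ ^ 2 / 2 := mul_pos hε h3
  linarith

theorem a5_eps (hC : CoreK) (n k k' : ℕ) [NeZero n] (hk : 1 ≤ k) (hkn : k ≤ n) (hkk : k ≤ k')
    (hnk : 2 * n ≤ k + 2 * k' + 1) (S : Arr (2 * n))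
    (hskew : ∀ a b c d, S a b c d = -S b a c d) (hpair : ∀ a b c d, S a b c d = S c d a b)
    (h : KN k S) (φ : Fin (2 * n) → ℂ) (hφ : φ ≠ 0)
    (hH : ∀ z w : Fin k' → Fin (2 * n) → ℂ, (∀ l, ∑ q, z l q * φ q = 0 ∧ ∑ q, w l q * φ q = 0) →
      0 ≤ (qf (cov S) (biv z w)).re) (ε : ℝ) (hε : 0 < ε) :
    0 ≤ gaussBonnet n (fun i j k l => S i j k l + ε * idA (2 * n) i j k l) := by
  have h1 := a5_gen hC n k k' hk hkn hkk hnk
    (cov (fun i j k l => S i j k l + ε * idA (2 * n) i j k l))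
    (by
      ext c d
      simp only [Matrix.conjTranspose_apply, cov]
      rw [hpair d.1 d.2 c.1 c.2]
      have hid : idA (2 * n) d.1 d.2 c.1 c.2 = idA (2 * n) c.1 c.2 d.1 d.2 := by
        simp only [idA, eq_comm]
        ring
      rw [hid]
      exact Complex.conj_ofReal _)
    (by
      intro p q c
      simp only [cov]
      rw [hskew p q c.1 c.2]
      have hid : idA (2 * n) p q c.1 c.2 = -idA (2 * n) q p c.1 c.2 := by
        simp only [idA]
        ring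
      rw [hid]
      push_cast
      ring)
    (fun z w hzw => a5_pos S ε hε z w (h z w) hzw) φ hφ
    (fun z w h1 hzw => a5_pos S ε hε z w (hH z w h1) hzw)
  rw [g7_W] at h1
  have h2 : (((n.factorial : ℂ) * (gaussBonnet n
      (fun i j k l => S i j k l + ε * idA (2 * n) i j k l) : ℂ)).re) =
      (n.factorial : ℝ) * gaussBonnet n (fun i j k l => S i j k l + ε * idA (2 * n) i j k l) := by
    rw [← Complex.ofReal_natCast, ← Complex.ofReal_mul, Complex.ofReal_re]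
  rw [h2] at h1
  have h3 : (0 : ℝ) < n.factorial := by exact_mod_cast Nat.factorial_pos n
  exact nonneg_of_mul_nonneg_right h1 h3

/-- the form can be taken to be nonzero -/
theorem a5_phi {n k : ℕ} [NeZero n] {P : Arr (2 * n)} (h : HPK k P) :
    ∃ φ : Fin (2 * n) → ℂ, φ ≠ 0 ∧ ∀ z w : Fin k → Fin (2 * n) → ℂ,
      (∀ l, ∑ q, z l q * φ q = 0 ∧ ∑ q, w l q * φ q = 0) → 0 ≤ (qf (cov P) (biv z w)).re := by
  obtain ⟨φ, hφ⟩ := h
  by_cases h0 : φ = 0
  · refine ⟨Pi.single (hpLast n) 1, ?_, ?_⟩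
    · intro h1
      have := congrFun h1 (hpLast n)
      simp at this
    · intro z w _
      refine hφ z w fun l => ?_
      rw [h0]
      simp
  · exact ⟨φ, h0, hφ⟩

/-- the pointwise theorem -/
theorem a5_gb (hC : CoreK) (h6 : Six) (n k k' : ℕ) (hk : 1 ≤ k)
    (hnk : n ≤ 3 ∨ 2 * n ≤ k + 2 * k' + 1) (S : Arr (2 * n)) (hA : IsAlgCurv S)
    (h : KN k S) (hH : n ≤ 3 ∨ HPK k' S) : 0 ≤ gaussBonnet n S := by
  by_cases h3 : n ≤ 3 ∨ 2 * n ≤ 3 * k + 1
  · exact kn_gb h6 n k hk h3 S hA h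
  push Not at h3
  have hn : 1 ≤ n := by omega
  have hkn : k ≤ n := by omega
  have hkk : k ≤ k' := by omega
  have hnk' : 2 * n ≤ k + 2 * k' + 1 := by omega
  have : NeZero n := ⟨by omega⟩
  obtain ⟨φ, hφ, hφ'⟩ := a5_phi (hH.resolve_left (by omega))
  have hcont : Continuous fun ε : ℝ =>
      gaussBonnet n (fun i j k l => S i j k l + ε * idA (2 * n) i j k l) := by
    unfold gaussBonnet
    fun_prop
  have h0 : (fun ε : ℝ => gaussBonnet n (fun i j k l => S i j k l + ε * idA (2 * n) i j k l)) 0 =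
      gaussBonnet n S := by
    simp
  have ht : Filter.Tendsto (fun ε : ℝ =>
      gaussBonnet n (fun i j k l => S i j k l + ε * idA (2 * n) i j k l))
      (nhdsWithin 0 (Set.Ioi 0)) (nhds (gaussBonnet n S)) := by
    rw [← h0]
    exact hcont.continuousAt.continuousWithinAt
  refine ge_of_tendsto ht ?_
  filter_upwards [self_mem_nhdsWithin] with ε hε
  exact a5_eps hC n k k' hk hkn hkk hnk' S hA.skew hA.pair h φ hφ hφ' ε hε

theorem a5_kn_pull {k m N : ℕ} (P : Arr (2 * N)) (v : Fin (2 * m) → (Fin (2 * N) → ℝ))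
    (z w : Fin k → Fin (2 * m) → ℂ) :
    qf (cov (pull v P)) (biv z w) =
      qf (cov P) (biv (fun l a => ∑ i, (v i a : ℂ) * z l i) (fun l a => ∑ i, (v i a : ℂ) * w l i)) := by
  have key := kn_sum (fun (p : Fin (2 * N) × Fin (2 * N)) (x : Fin (2 * m) × Fin (2 * m)) =>
    v x.1 p.1 * v x.2 p.2) (fun p q => P p.1 p.2 q.1 q.2) (biv z w)
  have e1 : qf (cov (pull v P)) (biv z w) = ∑ x, ∑ y, biv z w x * (starRingEnd ℂ) (biv z w y) *
      ((∑ p : Fin (2 * N) × Fin (2 * N), ∑ q : Fin (2 * N) × Fin (2 * N),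
        (v x.1 p.1 * v x.2 p.2) * (v y.1 q.1 * v y.2 q.2) * P p.1 p.2 q.1 q.2 : ℝ) : ℂ) := by
    unfold qf
    refine Finset.sum_congr rfl fun x _ => Finset.sum_congr rfl fun y _ => ?_
    congr 1
    unfold cov pull ev
    rw [Complex.ofReal_inj, Fintype.sum_prod_type]
    refine Finset.sum_congr rfl fun i _ => Finset.sum_congr rfl fun j _ => ?_
    rw [Fintype.sum_prod_type]
    refine Finset.sum_congr rfl fun k _ => Finset.sum_congr rfl fun l _ => ?_
    ring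
  have e2 : ∀ p : Fin (2 * N) × Fin (2 * N),
      biv (fun l a => ∑ i, (v i a : ℂ) * z l i) (fun l a => ∑ i, (v i a : ℂ) * w l i) p =
      ∑ x : Fin (2 * m) × Fin (2 * m), ((v x.1 p.1 * v x.2 p.2 : ℝ) : ℂ) * biv z w x := by
    intro p
    unfold biv
    have e3 : ∀ x : Fin (2 * m) × Fin (2 * m), ((v x.1 p.1 * v x.2 p.2 : ℝ) : ℂ) *
        (∑ l, z l x.1 * w l x.2) =
        ∑ l, ((v x.1 p.1 : ℂ) * z l x.1) * ((v x.2 p.2 : ℂ) * w l x.2) := by
      intro x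
      rw [Finset.mul_sum]
      refine Finset.sum_congr rfl fun l _ => ?_
      push_cast
      ring
    simp only [e3]
    rw [Finset.sum_comm]
    refine Finset.sum_congr rfl fun l _ => ?_
    rw [Fintype.sum_prod_type, Finset.sum_mul_sum]
  rw [e1]
  refine key.trans ?_
  unfold qf
  refine Finset.sum_congr rfl fun p _ => Finset.sum_congr rfl fun q _ => ?_
  rw [e2 p, e2 q]
  rfl

theorem a5_move {A B : Type} [Fintype A] [Fintype B] (M : A → B → ℂ) (φ : B → ℂ) (z : A → ℂ)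
    (h : ∑ i, z i * ∑ b, M i b * φ b = 0) : ∑ b, (∑ i, M i b * z i) * φ b = 0 := by
  rw [← h]
  simp only [Finset.sum_mul, Finset.mul_sum]
  rw [Finset.sum_comm]
  refine Finset.sum_congr rfl fun i _ => Finset.sum_congr rfl fun b _ => ?_
  ring

theorem a5_pull {k m N : ℕ} (P : Arr (2 * N)) (v : Fin (2 * m) → (Fin (2 * N) → ℝ))
    (h : HPK k P) : HPK k (pull v P) := by
  obtain ⟨φ, hφ⟩ := h
  refine ⟨fun i => ∑ b, (v i b : ℂ) * φ b, fun z w h1 => ?_⟩
  rw [a5_kn_pull]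
  exact hφ _ _ fun l => ⟨a5_move (fun i b => (v i b : ℂ)) φ (z l) (h1 l).1,
    a5_move (fun i b => (v i b : ℂ)) φ (w l) (h1 l).2⟩

theorem a5_lower (hC : CoreK) (h6 : Six) (n k k' : ℕ) (hk : 1 ≤ k)
    (hnk : n ≤ 3 ∨ 2 * n ≤ k + 2 * k' + 1) (P : Arr (2 * n))
    (hA : IsAlgCurv P) (t : ℝ) (ht : 0 < t)
    (hP : KN k (fun i j p q => P i j p q - t * idA (2 * n) i j p q))
    (hH : n ≤ 3 ∨ HPK k' (fun i j p q => P i j p q - t * idA (2 * n) i j p q)) :
    0 < gaussBonnet n P := by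
  have h := st_lower (n := n) (fun m Q => IsAlgCurv Q ∧ KN k Q ∧ (n ≤ 3 ∨ HPK k' Q))
    (fun m hm Q hQ => a5_gb hC h6 m k k' hk (by omega) Q hQ.1 hQ.2.1
      (hQ.2.2.imp_left fun h => hm.trans h))
    (fun m Q v _ hQ => ⟨pull_algCurv v hQ.1, kn_pull Q v hQ.2.1, hQ.2.2.imp_right (a5_pull Q v)⟩)
    t ht
    (fun i j p q => P i j p q - t * idA (2 * n) i j p q) ⟨algCurv_sub_idA hA t, hP, hH⟩
  have e : (fun i j k l => t * idA (2 * n) i j k l + (P i j k l - t * idA (2 * n) i j k l)) = P := by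
    funext i j k l
    ring
  rw [e] at h
  exact h

end H2W
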