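import Pool.Agent.Lib.H2W.A5
import Pool.Agent.Lib.H2K.F2

/-!
# H2W file A6: closed manifolds, two-vectors of rank at most `2 k` and of rank at most `2 k'` on a hyperplane
-/

open H31R H79G Pool.Agent.H69Hopf

namespace H2W

open H2K

/-- For `d = 2n`: `R(ω, ω̄) ≤ 0` for all complex two-vectors `ω = z 0 ∧ w 0 + ... + z (k-1) ∧ w (k-1)` and, if
`n ≥ 4`, there is a complex hyperplane, the kernel of `φ`, such that `R(ω, ω̄) ≤ 0` for all
`ω = z 0 ∧ w 0 + ... + z (k'-1) ∧ w (k'-1)` with all vectors `z l`, `w l` in this hyperplane. -/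
def TwoVectorNonpos (n k k' : ℕ) (R : Fin (2 * n) → Fin (2 * n) → Fin (2 * n) → Fin (2 * n) → ℝ) :
    Prop :=
  (∀ z w : Fin k → Fin (2 * n) → ℂ, complexCurvK R z w ≤ 0) ∧
  (n ≤ 3 ∨ ∃ φ : Fin (2 * n) → ℂ, ∀ z w : Fin k' → Fin (2 * n) → ℂ,
    (∀ l, ∑ i, z l i * φ i = 0 ∧ ∑ i, w l i * φ i = 0) → complexCurvK R z w ≤ 0)

theorem a6_KN {n k k' : ℕ} {R : Arr (2 * n)} (h : TwoVectorNonpos n k k' R) :
    KN k (fun i j p q => - R i j p q) := by
  intro z w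
  rw [← f1_qf, f1_neg]
  have := h.1 z w
  linarith

theorem a6_HP {n k k' : ℕ} {R : Arr (2 * n)} (h : TwoVectorNonpos n k k' R) :
    n ≤ 3 ∨ HPK k' (fun i j p q => - R i j p q) := by
  refine h.2.imp_right fun ⟨φ, hφ⟩ => ⟨φ, fun z w h1 => ?_⟩
  rw [← f1_qf, f1_neg]
  have := hφ z w h1
  linarith

/-- pointwise statement -/
theorem a6_point (hC : CoreK) (h6 : Six) (n k k' : ℕ) (hk : 1 ≤ k)
    (hnk : n ≤ 3 ∨ 2 * n ≤ k + 2 * k' + 1)
    (R : Arr (2 * n)) (hA : IsAlgCurv R) (hK : TwoVectorNonpos n k k' R) :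
    0 ≤ (-1) ^ n * gaussBonnet n R ∧
    (∀ t : ℝ, 0 < t → TwoVectorNonpos n k k' (fun i j p q => R i j p q + t * idA (2 * n) i j p q) →
      0 < (-1) ^ n * gaussBonnet n R) := by
  have hA' := algCurv_neg hA
  refine ⟨?_, fun t ht hT => ?_⟩
  · rw [← gb_neg]
    exact a5_gb hC h6 n k k' hk hnk _ hA' (a6_KN hK) (a6_HP hK)
  · rw [← gb_neg]
    have e : (fun i j p q => (fun i j k l => - R i j k l) i j p q - t * idA (2 * n) i j p q) =
        (fun i j p q => - (R i j p q + t * idA (2 * n) i j p q)) := by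
      funext i j p q
      ring
    refine a5_lower hC h6 n k k' hk hnk _ hA' t ht ?_ ?_
    · rw [e]
      exact a6_KN hT
    · rw [e]
      exact a6_HP hT

theorem a6_frame {n k k' : ℕ} {R : Cu (2 * n)} (h : TwoVectorNonpos n k k' R) (E : Mt (2 * n)) :
    TwoVectorNonpos n k k' (frameR R E) := by
  refine ⟨fun z w => ?_, h.2.imp_right fun ⟨φ, hφ⟩ => ⟨fun j => ∑ b, (E b j : ℂ) * φ b,
    fun z w h1 => ?_⟩⟩
  · rw [f1_frame]
    exact h.1 _ _
  · rw [f1_frame]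
    exact hφ _ _ fun l => ⟨a5_move (fun i b => (E b i : ℂ)) φ (z l) (h1 l).1,
      a5_move (fun i b => (E b i : ℂ)) φ (w l) (h1 l).2⟩

theorem a6_main (hC : CoreK) (h6 : Six)
    (h6' : ∀ (k : ℕ), 1 ≤ k → ∀ R : Arr (2 * 3), IsAlgCurv R →
      (∀ z w : Fin k → Fin (2 * 3) → ℂ, complexCurvK R z w ≤ 0) →
      (∀ x v : Fin 6 → ℝ, LinearIndependent ℝ ![x, v] → realCurv R x v < 0) → gaussBonnet 3 R < 0)
    (n k k' : ℕ) (hk : 1 ≤ k) (hnk : n ≤ 3 ∨ 2 * n ≤ k + 2 * k' + 1)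
    (M : Closed (2 * n)) (g : Ch.Metric (2 * n) M.carrier)
    (hK : ∀ p : M.carrier, ∀ y ∈ (chartAt (EE (2 * n)) p).target,
      TwoVectorNonpos n k k' (riem (g.mat p) y)) :
    ∃ χ : ℤ, IsEulerCharacteristic (2 * n) M.carrier χ ∧ 0 ≤ (-1) ^ n * χ ∧
      ((∃ m : M.carrier,
        (∃ h : ℝ, 0 < h ∧ TwoVectorNonpos n k k'
          (fun i j p q => riem (g.mat m) (chartAt (EE (2 * n)) m m) i j p q +
            h * (g.mat m (chartAt (EE (2 * n)) m m) i p * g.mat m (chartAt (EE (2 * n)) m m) j q -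
              g.mat m (chartAt (EE (2 * n)) m m) i q * g.mat m (chartAt (EE (2 * n)) m m) j p))) ∨
        (n = 3 ∧ ∀ x v : Fin (2 * n) → ℝ, LinearIndependent ℝ ![x, v] →
          realCurv (riem (g.mat m) (chartAt (EE (2 * n)) m m)) x v < 0)) →
        0 < (-1) ^ n * χ) := by
  have key : ∀ p : M.carrier, ∀ y ∈ (chartAt (EE (2 * n)) p).target, ∀ E : Mt (2 * n),
      E.transpose * g.mat p y * E = 1 →
      IsAlgCurv (frameR (riem (g.mat p) y) E) ∧
      TwoVectorNonpos n k k' (frameR (riem (g.mat p) y) E) :=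
    fun p y hy E _ => ⟨frame_algCurv (riem_algCurv (metOn g p) hy) E, a6_frame (hK p y hy) E⟩
  obtain ⟨χ, h1, h2, h3⟩ := sign_principle n M g ((-1) ^ n) (fun p y hy E hE => by
    obtain ⟨a1, a2⟩ := key p y hy E hE
    exact (a6_point hC h6 n k k' hk hnk _ a1 a2).1)
  refine ⟨χ, h1, ?_, ?_⟩
  · have h4 : (0 : ℝ) ≤ (((-1) ^ n * χ : ℤ) : ℝ) := by push_cast; exact h2
    exact_mod_cast h4
  · rintro ⟨m, hm⟩
    have hx := mem_chart_target (EE (2 * n)) m
    have h4 := h3 ⟨m, fun E hE => by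
      obtain ⟨a1, a2⟩ := key m _ hx E hE
      rcases hm with ⟨h, hh, hz⟩ | ⟨rfl, hneg⟩
      · have h5 := a6_frame hz E
        rw [f1_const _ _ _ hE] at h5
        exact (a6_point hC h6 n k k' hk hnk _ a1 a2).2 h hh h5
      · have h5 := h6' k hk _ a1 a2.1 (fun x v hxv => by
          have h6 := hneg _ _ (indep_frame hE hxv)
          rw [← real_frame] at h6
          exact h6)
        have h7 : ((-1 : ℝ)) ^ 3 = -1 := by norm_num
        rw [h7]
        linarith⟩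
    have h5 : (0 : ℝ) < (((-1) ^ n * χ : ℤ) : ℝ) := by push_cast; exact h4
    exact_mod_cast h5

end H2W
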