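import Pool.Agent.Lib.H2W.A6
import Pool.Agent.Lib.H87.HopfHP.P6

/-!
# H2W file A7: the core theorem (`Lib/H87/HopfHP/P6.lean`) in the form used in A5 and A6
-/

namespace H2W

theorem coreK : CoreK :=
  fun n k k' _ hk hkn _ hnk β hβ hs hp hW => H87HP.hpk_core n k k' hk hkn hnk β hβ hs hp hW

end H2W
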